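import Pool.Agent.R782.Bal.Main

/-!
# The Singer conjecture for the Davis manifolds of colourwise subdivided spheres

Let `X` be a finite simplicial complex embedded in the sphere of dimension `2 d`, for example a triangulation of the
sphere of dimension `2 d` or `2 d - 1` (or a homology sphere which is so embedded), with a colouring of its vertices.
Let `cs X col` be the graph of the subdivision of `X` in which only the monochromatic simplices are (barycentrically)
subdivided; if the missing faces of `X` have at most two colours (in particular if `X` is a flag complex) then its
flag complex is homeomorphic to `X`.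

If the flag complex of `cs X col` is a homology manifold with the homology of the `(n-1)`-sphere (`HSph n`), then the
Davis complex of the right-angled Coxeter group `W` of `cs X col` is a contractible real homology `n`-manifold, a
topological manifold if the flag complex is a combinatorial sphere, and its quotients by the torsion-free subgroups of
finite index of `W` are closed aspherical `n`-manifolds.

The colouring is called small if there are numbers `a c` with sum at most `d + 1` such that the simplices with all
vertices of colour `c` have at most `2 a c` vertices. For example: `d + 1` colours without monochromatic triangles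
(then only edges are subdivided), or one colour (barycentric subdivisions).
-/

set_option autoImplicit false

namespace Pool.Agent.Results.MP_f80465_gt.ColouredSpheres

open Pool.Agent.W907.SG Pool.Agent.Y132.SI Pool.Agent.R782.Bal
open Pool.Agent.TH652.Above (HSph chi_sign)

/-- Let `X` be a finite simplicial complex embedded in the sphere of dimension `2 d`, with a small colouring of its
vertices, such that the flag complex of `cs X col` is a real homology manifold with the real homology of the
`(n-1)`-sphere, `n = 2 d` or `n = 2 d + 1`. (1) The reduced `ℓ²`-homology of the Davis complex of the right-angled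
Coxeter group `W` of `cs X col` vanishes in all degrees `i ≠ n / 2`. (2) If `n = 2 d` then `(-1)^d χ(W) ≥ 0`.
(3) For each `ε > 0` there is a finite set `E` of nontrivial elements of `W` such that for every subgroup `H` of
finite index of `W` which contains no conjugate of an element of `E`, and for all `i`, the `i`-th real Betti number of
`H` differs by at most `ε [W : H]` from `0`, if `2 i ≠ n`, or from `(-1)^i χ(W) [W : H]`, if `2 i = n`. -/
theorem result : ∀ (d n N k : ℕ) (X : Finset (Finset (Fin N))) (col : Fin N → Fin k),
    (n = 2 * d ∨ n = 2 * d + 1) →
    (∀ σ ∈ X, ∀ τ : Finset (Fin N), τ ⊆ σ → τ ∈ X) → Small d X col → EmbX d X col →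
    ∀ [Fintype (MF X col)] [LinearOrder (MF X col)], HSph n (cs X col) →
    (∀ i : ℕ, 2 * i ≠ n → L2Van (cs X col) i) ∧
    (n = 2 * d → 0 ≤ (-1 : ℚ) ^ d * chiW (cs X col)) ∧
    ∀ ε : ℝ, 0 < ε → ∃ E : Finset (W (cs X col)), (1 : W (cs X col)) ∉ E ∧
      ∀ H : Subgroup (W (cs X col)), H.FiniteIndex → (∀ g ∈ E, ∀ x : W (cs X col), x * g * x⁻¹ ∉ H) →
        ∀ i : ℕ, |(Module.finrank ℝ (HInv (cs X col) H i) : ℝ) -
          (if 2 * i = n then (-1) ^ i * (chiW (cs X col) : ℝ) else 0) * H.index| ≤ ε * H.index := by
  intro d n N k X col hn hX hs hE _ _ hS
  have h1 : ∀ i : ℕ, 2 * i ≠ n → L2Van (cs X col) i := fun i hi => singer_cs hn hX hs hE hS i hi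
  refine ⟨h1, ?_, fun ε hε => growth_free (cs X col) n h1 ε hε⟩
  rintro rfl
  exact chi_sign (cs X col) fun i hi => h1 i (by omega)

end Pool.Agent.Results.MP_f80465_gt.ColouredSpheres
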